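import Mathlib

namespace Pool.Agent.Results.MP_259ac5_co.Three

def c (z : ℤ × ℤ) : ℝ × ℝ := ((z.1 : ℝ), (z.2 : ℝ))

def InClass (P F : Set (ℤ × ℤ)) : Prop :=
  F.Finite ∧ (∀ z, z ∈ F ↔ c z ∈ convexHull ℝ (c '' F)) ∧
    ∀ p ∈ P, ∀ q ∈ P, p ≠ q → ∀ z ∈ F, c z ∉ line[ℝ, c p, c q]

theorem swap_card {α : Type} (C L : Set α) (hC : C.Finite) (w b : Fin 3 → α)
    (hw : Function.Injective w) (hb : Function.Injective b) (h1 : ∀ i, w i ∉ C)
    (h2 : ∀ i, b i ∉ C) (σ : Equiv.Perm (Fin 3)) (h : ∀ i, w i ∈ L ↔ b (σ i) ∈ L) :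
    ((C ∪ Set.range w) ∩ L).ncard = ((C ∪ Set.range b) ∩ L).ncard := by
  have key : ∀ g : Fin 3 → α, Function.Injective g → (∀ i, g i ∉ C) →
      ((C ∪ Set.range g) ∩ L).ncard = (C ∩ L).ncard + {i | g i ∈ L}.ncard := by
    intro g hg hC'
    have e : Set.range g ∩ L = g '' {i | g i ∈ L} := by
      ext x
      constructor
      · rintro ⟨⟨i, rfl⟩, hx⟩; exact ⟨i, hx, rfl⟩
      · rintro ⟨i, hx, rfl⟩; exact ⟨⟨i, rfl⟩, hx⟩
    rw [Set.union_inter_distrib_right, Set.ncard_union_eq _ (hC.inter_of_left _)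
      ((Set.finite_range g).inter_of_left _), e, Set.ncard_image_of_injective _ hg]
    rw [Set.disjoint_left]
    rintro x hx ⟨⟨i, rfl⟩, _⟩
    exact hC' i hx.1
  have e : Set.range b = Set.range (b ∘ σ) := (σ.surjective.range_comp b).symm
  rw [e, key w hw h1, key (b ∘ σ) (hb.comp σ.injective) (fun i => h2 _)]
  simp only [h, Function.comp]

def Hx (u v : ℝ) : Prop :=
  3 * v - 4 * u + 4 ≤ 0 ∧ 5 * v - 6 * u ≤ 0 ∧ 15 * v - 17 * u - 15 ≤ 0 ∧
    15 * u - 13 * v - 15 ≤ 0 ∧ 9 * u - 8 * v ≤ 0 ∧ u - v + 1 ≤ 0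
def G1 (u v : ℝ) : Prop := 2 * v - 3 * u + 5 < 0 ∧ 20 * v - 23 * u - 15 < 0 ∧
  24 * u - 21 * v - 15 < 0
def G2 (u v : ℝ) : Prop := 8 * v - 10 * u + 4 < 0 ∧ 2 * v - 2 * u - 30 < 0 ∧
  10 * u - 9 * v + 1 < 0

def A (o d e : ℤ × ℤ) (u v : ℝ) : ℝ × ℝ :=
  (o.1 + u * d.1 + v * e.1, o.2 + u * d.2 + v * e.2)

def pt (o d e : ℤ × ℤ) (a : ℤ × ℤ) : ℤ × ℤ :=
  (o.1 + a.1 * d.1 + a.2 * e.1, o.2 + a.1 * d.2 + a.2 * e.2)

theorem c_pt (o d e a : ℤ × ℤ) : c (pt o d e a) = A o d e a.1 a.2 := by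
  simp [c, pt, A]

theorem c_inj : Function.Injective c := by
  intro x y h
  simp only [c, Prod.mk.injEq, Int.cast_inj] at h
  exact Prod.ext h.1 h.2

theorem A_inj {o d e : ℤ × ℤ} (hD : (d.1 : ℝ) * e.2 - d.2 * e.1 ≠ 0) {u v u' v' : ℝ}
    (h : A o d e u v = A o d e u' v') : u = u' ∧ v = v' := by
  simp only [A, Prod.mk.injEq] at h
  constructor
  · apply mul_right_cancel₀ hD
    linear_combination (e.2 : ℝ) * h.1 - (e.1 : ℝ) * h.2
  · apply mul_right_cancel₀ hD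
    linear_combination (d.1 : ℝ) * h.2 - (d.2 : ℝ) * h.1

def S (o d e : ℤ × ℤ) (G : ℝ → ℝ → Prop) : Set (ℤ × ℤ) :=
  {z | ∃ u v, Hx u v ∧ G u v ∧ c z = A o d e u v}

theorem bnd {u v : ℝ} (h : Hx u v) : 7 ≤ u ∧ u ≤ 120 ∧ 7 ≤ v ∧ v ≤ 120 := by
  obtain ⟨h1, h2, h3, h4, h5, h6⟩ := h
  refine ⟨by linarith, by linarith, by linarith, by linarith⟩

theorem S_fin (o d e : ℤ × ℤ) (G : ℝ → ℝ → Prop) : (S o d e G).Finite := by
  have key : ∀ (z o d e : ℤ) (u v : ℝ), Hx u v → (z : ℝ) = o + u * d + v * e →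
      z ∈ Set.Icc (o - 120 * (|d| + |e|)) (o + 120 * (|d| + |e|)) := by
    intro z o d e u v h hz
    obtain ⟨h1, h2, h3, h4⟩ := bnd h
    have a1 := le_abs_self (d : ℝ)
    have a2 := neg_abs_le (d : ℝ)
    have a3 := le_abs_self (e : ℝ)
    have a4 := neg_abs_le (e : ℝ)
    have a5 := abs_nonneg (d : ℝ)
    have a6 := abs_nonneg (e : ℝ)
    have b1 : (o : ℝ) - 120 * (|(d : ℝ)| + |(e : ℝ)|) ≤ z := by nlinarith
    have b2 : (z : ℝ) ≤ o + 120 * (|(d : ℝ)| + |(e : ℝ)|) := by nlinarith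
    exact ⟨by exact_mod_cast b1, by exact_mod_cast b2⟩
  refine ((Set.finite_Icc (o.1 - 120 * (|d.1| + |e.1|)) (o.1 + 120 * (|d.1| + |e.1|))).prod
    (Set.finite_Icc (o.2 - 120 * (|d.2| + |e.2|)) (o.2 + 120 * (|d.2| + |e.2|)))).subset ?_
  rintro z ⟨u, v, h, _, hz⟩
  exact ⟨key _ _ _ _ u v h (congrArg Prod.fst hz), key _ _ _ _ u v h (congrArg Prod.snd hz)⟩

theorem comb_lt {a b x y : ℝ} (ha : 0 ≤ a) (hb : 0 ≤ b) (hab : a + b = 1) (hx : x < 0)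
    (hy : y < 0) : a * x + b * y < 0 := by
  rcases ha.eq_or_lt with h | h
  · have : b = 1 := by linarith
    rw [← h, this]; linarith
  · nlinarith

theorem S_conv (o d e : ℤ × ℤ) (G : ℝ → ℝ → Prop)
    (hG : ∀ a b u v u' v' : ℝ, 0 ≤ a → 0 ≤ b → a + b = 1 → G u v → G u' v' →
      G (a * u + b * u') (a * v + b * v')) (z : ℤ × ℤ) :
    z ∈ S o d e G ↔ c z ∈ convexHull ℝ (c '' S o d e G) := by
  refine ⟨fun h => subset_convexHull ℝ _ ⟨z, h, rfl⟩, fun h => ?_⟩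
  refine convexHull_min (t := {q | ∃ u v, Hx u v ∧ G u v ∧ q = A o d e u v}) ?_ ?_ h
  · rintro _ ⟨y, hy, rfl⟩
    exact hy
  · rintro _ ⟨u, v, h1, h2, rfl⟩ _ ⟨u', v', h1', h2', rfl⟩ a b ha hb hab
    refine ⟨a * u + b * u', a * v + b * v', ?_, hG a b u v u' v' ha hb hab h2 h2', ?_⟩
    · obtain ⟨e1, e2, e3, e4, e5, e6⟩ := h1
      obtain ⟨f1, f2, f3, f4, f5, f6⟩ := h1'
      refine ⟨?_, ?_, ?_, ?_, ?_, ?_⟩
      · nlinarith [mul_nonneg ha (neg_nonneg.2 e1), mul_nonneg hb (neg_nonneg.2 f1)]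
      · nlinarith [mul_nonneg ha (neg_nonneg.2 e2), mul_nonneg hb (neg_nonneg.2 f2)]
      · nlinarith [mul_nonneg ha (neg_nonneg.2 e3), mul_nonneg hb (neg_nonneg.2 f3)]
      · nlinarith [mul_nonneg ha (neg_nonneg.2 e4), mul_nonneg hb (neg_nonneg.2 f4)]
      · nlinarith [mul_nonneg ha (neg_nonneg.2 e5), mul_nonneg hb (neg_nonneg.2 f5)]
      · nlinarith [mul_nonneg ha (neg_nonneg.2 e6), mul_nonneg hb (neg_nonneg.2 f6)]
    · have hb' : b = 1 - a := by linarith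
      subst hb'
      simp only [A, Prod.smul_mk, Prod.mk_add_mk, smul_eq_mul, Prod.mk.injEq]
      constructor <;> ring

theorem line_mem (l : AffineSubspace ℝ (ℝ × ℝ)) (p x y : ℝ × ℝ) (hp : p ∈ l) (t : ℝ) (ht : t ≠ 0)
    (h : y = AffineMap.lineMap p x t) : x ∈ l ↔ y ∈ l := by
  constructor
  · intro hx
    rw [h]
    exact AffineMap.lineMap_mem t hp hx
  · intro hy
    have : x = AffineMap.lineMap p y t⁻¹ := by
      rw [h, AffineMap.lineMap_lineMap_right, inv_mul_cancel₀ ht, AffineMap.lineMap_apply_one]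
    rw [this]
    exact AffineMap.lineMap_mem _ hp hy

theorem A_line (o d e : ℤ × ℤ) (u v u' v' t : ℝ) :
    AffineMap.lineMap (A o d e u v) (A o d e u' v') t =
      A o d e (u + t * (u' - u)) (v + t * (v' - v)) := by
  simp only [A, AffineMap.lineMap_apply, vsub_eq_sub, vadd_eq_add, Prod.mk_sub_mk, Prod.smul_mk,
    Prod.mk_add_mk, smul_eq_mul, Prod.mk.injEq]
  constructor <;> ring

def w0 : Fin 3 → ℤ × ℤ := ![(10, 12), (8, 9), (105, 120)]
def b0 : Fin 3 → ℤ × ℤ := ![(7, 8), (40, 45), (15, 18)]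

theorem result : ∀ p₁ p₂ p₃ : ℤ × ℤ, ¬ Collinear ℝ {c p₁, c p₂, c p₃} →
    ∃ F₁ F₂ : Set (ℤ × ℤ), F₁ ≠ F₂ ∧ InClass {p₁, p₂, p₃} F₁ ∧ InClass {p₁, p₂, p₃} F₂ ∧
      ∀ p ∈ ({p₁, p₂, p₃} : Set (ℤ × ℤ)), ∀ l : AffineSubspace ℝ (ℝ × ℝ),
        Module.finrank ℝ l.direction = 1 → c p ∈ l →
        (F₁ ∩ {z | c z ∈ l}).ncard = (F₂ ∩ {z | c z ∈ l}).ncard := by
  intro p₁ p₂ o hcol
  obtain ⟨d, rfl⟩ : ∃ d, p₁ = pt o d (p₂ - o) (1, 0) := ⟨p₁ - o, by ext <;> simp [pt]⟩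
  obtain ⟨e, he⟩ : ∃ e, e = p₂ - o := ⟨_, rfl⟩
  rw [← he] at hcol ⊢
  have h2 : p₂ = pt o d e (0, 1) := by rw [he]; ext <;> simp [pt]
  have h3 : o = pt o d e (0, 0) := by ext <;> simp [pt]
  clear he
  have c1 : c (pt o d e (1, 0)) = A o d e 1 0 := by simp [c_pt]
  have c2 : c p₂ = A o d e 0 1 := by rw [h2]; simp [c_pt]
  have c3 : c o = A o d e 0 0 := by simp [c, A]
  have hD : (d.1 : ℝ) * e.2 - d.2 * e.1 ≠ 0 := by
    intro hD
    apply hcol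
    rw [collinear_iff_of_mem (p₀ := c o) (by simp), c1, c2, c3]
    by_cases hd : (d.1 : ℝ) ^ 2 + (d.2 : ℝ) ^ 2 = 0
    · have d1 : (d.1 : ℝ) = 0 := by nlinarith
      have d2 : (d.2 : ℝ) = 0 := by nlinarith
      refine ⟨c e, ?_⟩
      rintro p (rfl | rfl | rfl)
      · exact ⟨0, by simp [A, d1, d2]⟩
      · exact ⟨1, by simp [A, c, add_comm]⟩
      · exact ⟨0, by simp⟩
    · refine ⟨c d, ?_⟩
      rintro p (rfl | rfl | rfl)
      · exact ⟨1, by simp [A, c, add_comm]⟩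
      · refine ⟨(d.1 * e.1 + d.2 * e.2) / ((d.1 : ℝ) ^ 2 + (d.2 : ℝ) ^ 2), ?_⟩
        simp only [A, c, Prod.smul_mk, vadd_eq_add, Prod.mk_add_mk, smul_eq_mul, Prod.mk.injEq]
        constructor
        · field_simp
          linear_combination (-(d.2 : ℝ)) * hD
        · field_simp
          linear_combination (d.1 : ℝ) * hD
      · exact ⟨0, by simp⟩
  have cls : ∀ G : ℝ → ℝ → Prop, (∀ a b u v u' v' : ℝ, 0 ≤ a → 0 ≤ b → a + b = 1 → G u v →
      G u' v' → G (a * u + b * u') (a * v + b * v')) →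
      InClass {pt o d e (1, 0), p₂, o} (S o d e G) := by
    intro G hG
    refine ⟨S_fin _ _ _ _, S_conv _ _ _ _ hG, ?_⟩
    rintro p hp q hq hpq z ⟨u, v, hH, _, hz⟩ hl
    obtain ⟨t, ht⟩ := mem_affineSpan_pair_iff_exists_lineMap_eq.1 hl
    obtain ⟨b1, b2, b3, b4⟩ := bnd hH
    rw [hz] at ht
    rcases hp with rfl | rfl | rfl <;> rcases hq with hq | hq | hq <;> rw [hq] at ht hpq <;>
      first
      | exact hpq rfl
      | (simp only [c1, c2, c3, A_line] at ht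
         obtain ⟨e1, e2⟩ := A_inj hD ht
         linarith)
  have mem : ∀ (G : ℝ → ℝ → Prop) (a : ℤ × ℤ), pt o d e a ∈ S o d e G ↔ Hx a.1 a.2 ∧ G a.1 a.2 := by
    intro G a
    constructor
    · rintro ⟨u, v, h1, h2, h3⟩
      rw [c_pt] at h3
      obtain ⟨rfl, rfl⟩ := A_inj hD h3
      exact ⟨h1, h2⟩
    · rintro ⟨h1, h2⟩
      exact ⟨_, _, h1, h2, c_pt _ _ _ _⟩
  have ptinj : Function.Injective (pt o d e) := by
    intro a b h
    have := congrArg c h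
    rw [c_pt, c_pt] at this
    obtain ⟨e1, e2⟩ := A_inj hD this
    exact Prod.ext (by exact_mod_cast e1) (by exact_mod_cast e2)
  have eqpt : ∀ (z a : ℤ × ℤ) (u v : ℝ), c z = A o d e u v → u = a.1 → v = a.2 →
      pt o d e a = z := by
    intro z a u v h h1 h2
    apply c_inj
    rw [c_pt, h, h1, h2]
  let C := S o d e (fun u v => G1 u v ∧ G2 u v)
  have e1 : S o d e G1 = C ∪ Set.range (pt o d e ∘ w0) := by
    ext z
    constructor
    · rintro ⟨u, v, h1, h2, h3⟩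
      by_cases h4 : G2 u v
      · exact Or.inl ⟨u, v, h1, ⟨h2, h4⟩, h3⟩
      · right
        obtain ⟨f1, f2, f3, f4, f5, f6⟩ := h1
        simp only [G2, not_and_or, not_lt] at h4
        rcases h4 with h4 | h4 | h4
        · exact ⟨0, eqpt z _ u v h3 (by simp [w0]; linarith) (by simp [w0]; linarith)⟩
        · exact ⟨2, eqpt z _ u v h3 (by simp [w0]; linarith) (by simp [w0]; linarith)⟩
        · exact ⟨1, eqpt z _ u v h3 (by simp [w0]; linarith) (by simp [w0]; linarith)⟩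
    · rintro (⟨u, v, h1, h2, h3⟩ | ⟨i, rfl⟩)
      · exact ⟨u, v, h1, h2.1, h3⟩
      · refine (mem _ _).2 ?_
        fin_cases i <;> norm_num [w0, Hx, G1]
  have e2 : S o d e G2 = C ∪ Set.range (pt o d e ∘ b0) := by
    ext z
    constructor
    · rintro ⟨u, v, h1, h2, h3⟩
      by_cases h4 : G1 u v
      · exact Or.inl ⟨u, v, h1, ⟨h4, h2⟩, h3⟩
      · right
        obtain ⟨f1, f2, f3, f4, f5, f6⟩ := h1
        simp only [G1, not_and_or, not_lt] at h4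
        rcases h4 with h4 | h4 | h4
        · exact ⟨0, eqpt z _ u v h3 (by simp [b0]; linarith) (by simp [b0]; linarith)⟩
        · exact ⟨2, eqpt z _ u v h3 (by simp [b0]; linarith) (by simp [b0]; linarith)⟩
        · exact ⟨1, eqpt z _ u v h3 (by simp [b0]; linarith) (by simp [b0]; linarith)⟩
    · rintro (⟨u, v, h1, h2, h3⟩ | ⟨i, rfl⟩)
      · exact ⟨u, v, h1, h2.2, h3⟩
      · refine (mem _ _).2 ?_
        fin_cases i <;> norm_num [b0, Hx, G2]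
  refine ⟨S o d e G1, S o d e G2, ?_, cls G1 ?_, cls G2 ?_, ?_⟩
  · intro h
    have h1 : pt o d e (7, 8) ∈ S o d e G2 := (mem _ _).2 (by norm_num [Hx, G2])
    rw [← h, mem] at h1
    norm_num [G1] at h1
  · rintro a b u v u' v' ha hb hab ⟨f1, f2, f3⟩ ⟨g1, g2, g3⟩
    exact ⟨by nlinarith [comb_lt ha hb hab f1 g1], by nlinarith [comb_lt ha hb hab f2 g2],
      by nlinarith [comb_lt ha hb hab f3 g3]⟩
  · rintro a b u v u' v' ha hb hab ⟨f1, f2, f3⟩ ⟨g1, g2, g3⟩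
    exact ⟨by nlinarith [comb_lt ha hb hab f1 g1], by nlinarith [comb_lt ha hb hab f2 g2],
      by nlinarith [comb_lt ha hb hab f3 g3]⟩
  · intro p hp l _ hl
    rw [e1, e2]
    have go : ∀ (σ : Equiv.Perm (Fin 3)) (u v : ℝ) (t : Fin 3 → ℝ), c p = A o d e u v →
        (∀ i, t i ≠ 0 ∧ ((b0 (σ i)).1 : ℝ) = u + t i * ((w0 i).1 - u) ∧
          ((b0 (σ i)).2 : ℝ) = v + t i * ((w0 i).2 - v)) →
        ((C ∪ Set.range (pt o d e ∘ w0)) ∩ {z | c z ∈ l}).ncard =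
          ((C ∪ Set.range (pt o d e ∘ b0)) ∩ {z | c z ∈ l}).ncard := by
      intro σ u v t hc ht
      refine swap_card C _ (S_fin _ _ _ _) _ _ (ptinj.comp (by decide)) (ptinj.comp (by decide))
        ?_ ?_ σ ?_
      · intro i h
        have := ((mem _ _).1 h).2.2
        fin_cases i <;> norm_num [w0, G2] at this
      · intro i h
        have := ((mem _ _).1 h).2.1
        fin_cases i <;> norm_num [b0, G1] at this
      · intro i
        refine line_mem l (c p) _ _ hl (t i) (ht i).1 ?_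
        simp only [Function.comp, c_pt]
        rw [hc, A_line, ← (ht i).2.1, ← (ht i).2.2]
    rcases hp with rfl | rfl | rfl
    · refine go (Equiv.swap 1 2) 1 0 ![2 / 3, 2, 3 / 8] c1 ?_
      intro i
      fin_cases i <;> simp [w0, b0, Equiv.swap_apply_def] <;> norm_num
    · refine go (Equiv.swap 0 1) 0 1 ![4, 7 / 8, 1 / 7] c2 ?_
      intro i
      fin_cases i <;> simp [w0, b0, Equiv.swap_apply_def] <;> norm_num
    · refine go (Equiv.swap 0 2) 0 0 ![3 / 2, 5, 1 / 15] c3 ?_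
      intro i
      fin_cases i <;> simp [w0, b0, Equiv.swap_apply_def] <;> norm_num

end Pool.Agent.Results.MP_259ac5_co.Three
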